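import Mathlib
import Pool.Agent.TH170.GS.Main
import Pool.Agent.TH170.FT.CommonDefs
import Pool.Agent.TH170.FT.MT

/-!
# Common `ℚ`-form of the `ℓ`-adic monodromy groups of abelian varieties with a Frobenius element in
almost all slope types of arbitrary CM fields

Let `A` be an abelian variety over a number field, of any dimension and with arbitrary endomorphisms,
which has good reduction at some place `v`, with a residue field of `p ^ a` elements. Suppose that the
characteristic polynomial of the Frobenius element at `v` is the product of the minimal polynomials
of Weil numbers `π i` that generate CM fields `K i` of degree `2 g i` (`HasFrobenius`); so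
`dim A = ∑ i, g i`. Nothing is assumed about the Galois groups of the fields `K i`; they are pairwise
independent: for `i ≠ k` and all complex embeddings `φ` of `K i` and `ψ` of `K k` some automorphism
of `ℂ` is the identity on `φ (K i)` and the complex conjugation on `ψ (K k)` (this is no condition if
there is only one field).

We fix an isomorphism `ν` of the algebraic closure of `ℚ_p` with `ℂ`; it defines a `p`-adic valuation
of `ℂ`, with the value one at `p`. Let `M i` be a function with nonzero integral values, all of which
divide `n i`, on the complex embeddings of `K i`, invariant under complex conjugation. A CM type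
`Φ i` of `K i` (a choice of one element out of each complex conjugate pair of embeddings; there are
`2 ^ (g i)` types), `M i` and a real number `κ ≠ 0` prescribe the slopes `(a + κ M) / 2` (at the
embeddings in `Φ i`) and `(a - κ M) / 2` (outside of `Φ i`) of a Weil number in `K i` (`IsOfType`). If
`p` splits completely in `K i` then, by Honda and Tate, all slopes with rational values between `0`
and `a` that are symmetric in this way occur for abelian varieties over finite fields. The case
`M = 1`, `κ = a` is the case of ordinary reduction; the assumption on `M` says that `a / 2` is not a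
slope. Slopes are rational, so integral weights `M` are no restriction.

There are `2 ^ (∑ i, g i)` families of CM types `Φ i` of the fields `K i`. A family is exceptional
(`exceptionalFamilies ν K M`) if the following statement (`Holds`) is false for it: for all abelian
varieties `A` as above with Weil numbers `π i` of the slope types `Φ i`, and all `ℓ₀` (such that the
Frobenius element has this characteristic polynomial for the primes `ℓ ≥ ℓ₀`; so `ℓ₀ > p`), for all
prime numbers `ℓ ≥ ℓ₀` and all `m` each `ℓ`-adic Tate class in `(H^1)^{⊗ 2 m}(m)` is a linear
combination, with coefficients in `ℚ_ℓ`, of rational forms on `W = H_1(A, ℚ)` which are Tate classes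
for all prime numbers `≥ ℓ₀` and products of Hodge classes of degree two (`HasCommonForm`). The
identity component of the Zariski closure of the image of the Galois group is reductive and contains
the homotheties; it is the group of the elements of `GSp` which fix all Tate classes. So there is an
algebraic group over `ℚ` (the identity component of the Lefschetz group, which consists of the
similitudes of the polarization form that commute with the endomorphisms of `A`) which becomes
the connected monodromy group over `ℚ_ℓ` for all `ℓ ≥ ℓ₀`; this translation is the one of MP_e965d0_ag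
QuarticForms and it is not formalized.

In the formal statement `per` is the inclusion of `W` in the tangent space, `ω₀` the form given by a
polarization, and `D ℓ` (`GaloisData`) consists of the action of the Galois group on the rational
Tate module `ℚ_ℓ ⊗ W`, the cyclotomic character, the Weil pairing, the theorems of Faltings on
endomorphisms and on semisimplicity (`IsRealization`) and the theorem of Deligne that Hodge classes
are Tate classes. That the absence of relations between the conjugates of the Weil numbers of one
Frobenius element implies the Mumford-Tate conjecture was formalized before (MP_c1bb77_ag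
OneFrobeniusTowers); new is that this holds for almost all slope types in arbitrary CM fields. The
Mumford-Tate conjecture for these abelian varieties is MP_33b3f9_ag AlmostAllFrobeniusTypes.

The theorem bounds the number of the exceptional families: it is at most
`2 ^ (∑ i, g i) * ∑ i, ρ (K i)`. Here `ρ (K)` (`rho n g φ₀`) is described as follows. The
automorphisms of `ℂ` act on the set of the `2 g` complex embeddings of `K` through a finite group
`G` (the Galois group of the normal closure), and so on the space `V`, of dimension `g`, of the
rational functions on this set that change their sign under complex conjugation. Then `ρ (K)` is the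
sum of the numbers `w (W)` (`weight n g φ₀ W`) over the isotypic components `W` of `V`
(`components K`):

* `w (W) = 0` if `n` is odd and every minimal Galois-stable space in `W` contains a function with
  integral values whose sum over a CM type is odd;
* otherwise `w (W) = (2 d / (π g)) ^ (d / 2)` if `W` is itself a minimal space, of dimension `d`;
* otherwise `w (W)` is the smaller of `(53 λ d / g) ^ (c / 2)` (if
  `(10 ^ 4 + 10 λ) ^ 2 λ d ≤ 2 g`; replaced by `1` if not) and
  `8 (2 d / (π g)) ^ (d / 2) (10 ^ 4 + 10 λ + 6 √(d g)) ^ (d - c)`. Here `λ = log (|G| n)`,
  `d = dim S` for the minimal spaces `S` in `W`, and `c = e + d - h`, where `e` is the dimension of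
  the space of the equivariant endomorphisms of `S` and `h` the dimension of the space of the
  functions in `S` that are invariant under the stabilizer of a complex embedding.

Let `Q` be the number of the imaginary quadratic subfields of `K` and `N d` the number of the
components `W` that are minimal spaces of dimension `d`. The second part (`RhoEstimate`) is the
estimate `ρ (K) ≤ Q / √g + 2 (N 2 + 1) / g + 3 N 3 / g ^ (3 / 2) + ∑ w (W)`, where the last sum is
over the components `W` which are not minimal, and the term `Q / √g` is omitted if `n g` is odd. The
third part (`NoMultipleComponents`) says that there are no such components if `K` is abelian over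
`ℚ`, or if any two complex embeddings of `K` are exchanged by some automorphism of `ℂ` (for instance
`K = k F` for an imaginary quadratic field `k` and a totally real field `F` with this property, such
as the fields of degree `binomial (n, m)` which belong to the sets with `m` elements of roots of a
polynomial of degree `n` with real roots and Galois group `S_n`). Always `N 3 ≤ g / 3`; if `K` is
cyclic over `ℚ` then `g` is odd or `Q = 0`, and `N 2 ≤ 2`, `N 3 = 0`.

The proof: if there are relations between the conjugates of the Weil numbers that are not generated by
those of the complex conjugate pairs, then for one of the types the sign function, multiplied by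
`M`, is orthogonal to a minimal Galois-stable space. The number of these sign functions is estimated by a Fourier integral and the
inequality of Hölder. There are in general infinitely many minimal spaces isomorphic to `S`, but
modulo a prime number `ℓ` that does not divide `|G| n` there are only about `ℓ ^ (h - e)` of them.
-/

namespace Pool.Agent.Results.MP_e965d0_ag.AlmostAllFrobeniusTypes

open NumberField Module Pool.Agent.H204R3.CM Pool.Agent.H977R3.CM Pool.Agent.TH170

/-- The common `ℚ`-form for the abelian varieties with a Frobenius element whose characteristic
polynomial is the product of the minimal polynomials of Weil numbers `π i` for `p ^ a` with the slope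
types `Φ i`, `M i`. -/
def HoldsAt {p : ℕ} [Fact p.Prime] (ν : PadicAlgCl p ≃+* ℂ) {I : Type} [Fintype I]
    (K : I → Type) [∀ i, Field (K i)] [∀ i, NumberField (K i)] [∀ i, IsCMField (K i)]
    (M : ∀ i, (K i →+* ℂ) → ℤ) (Φ : ∀ i, Set (K i →+* ℂ)) (a : ℕ) (π : ∀ i, K i) : Prop :=
  ∀ (W T Γ : Type) [AddCommGroup W] [Module ℚ W] [FiniteDimensional ℚ W] [AddCommGroup T]
    [Module ℂ T] [Group Γ] (per : W →+ T) (ω₀ : W →ₗ[ℚ] W →ₗ[ℚ] ℚ)
    (D : ∀ (ℓ : ℕ) [Fact ℓ.Prime], FT.GaloisData per ω₀ Γ ℓ) (ℓ₀ : ℕ),
    FT.IsOfType ν a K M Φ π →
      (∀ (ℓ : ℕ) [Fact ℓ.Prime], ℓ₀ ≤ ℓ → FT.HasFrobenius (D ℓ).ρ (D ℓ).χ p a π) →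
        FT.HasCommonForm D ℓ₀

/-- The common `ℚ`-form for all abelian varieties with a Frobenius element whose characteristic
polynomial is the product of the minimal polynomials of Weil numbers with the slope types `Φ i`,
`M i`. -/
def Holds {p : ℕ} [Fact p.Prime] (ν : PadicAlgCl p ≃+* ℂ) {I : Type} [Fintype I]
    (K : I → Type) [∀ i, Field (K i)] [∀ i, NumberField (K i)] [∀ i, IsCMField (K i)]
    (M : ∀ i, (K i →+* ℂ) → ℤ) (Φ : ∀ i, Set (K i →+* ℂ)) : Prop :=
  ∀ (a : ℕ) (π : ∀ i, K i), 0 < a → HoldsAt ν K M Φ a π

/-- The exceptional families of CM types. -/
def exceptionalFamilies {p : ℕ} [Fact p.Prime] (ν : PadicAlgCl p ≃+* ℂ) {I : Type} [Fintype I]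
    (K : I → Type) [∀ i, Field (K i)] [∀ i, NumberField (K i)] [∀ i, IsCMField (K i)]
    (M : ∀ i, (K i →+* ℂ) → ℤ) : Set (∀ i, Set (K i →+* ℂ)) :=
  {Φ | (∀ i, IsCMType (Φ i)) ∧ ¬ Holds ν K M Φ}

/-- **Common `ℚ`-form of the `ℓ`-adic monodromy groups of abelian varieties with a Frobenius element
in almost all slope types of arbitrary CM fields.** -/
theorem result :
    (∀ (p : ℕ) [Fact p.Prime] (ν : PadicAlgCl p ≃+* ℂ) {I : Type} [Fintype I] (K : I → Type)
      [∀ i, Field (K i)] [∀ i, NumberField (K i)] [∀ i, IsCMField (K i)]
      (M : ∀ i, (K i →+* ℂ) → ℤ) (n g : I → ℕ) (φ₀ : ∀ i, K i →+* ℂ), PairwiseIndep K →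
      (∀ i φ, M i (ComplexEmbedding.conjugate φ) = M i φ) → (∀ i, n i ≠ 0) →
      (∀ i φ, M i φ ∣ (n i : ℤ)) → (∀ i, finrank ℚ (K i) = 2 * g i) →
      ((exceptionalFamilies ν K M).ncard : ℝ) ≤
        2 ^ (∑ i, g i) * ∑ i, GS.rho (n i) (g i) (φ₀ i)) ∧
    GS.RhoEstimate ∧ GS.NoMultipleComponents :=
  ⟨fun _ _ _ _ _ K _ _ _ M n g φ₀ hind hM hn hMn hg =>
    FT.ncard_le K M n g φ₀ hM hn hMn hg _ fun _ hΦ hnd _ _ ha _ _ _ _ _ _ _ _ _ _ _ D ℓ₀
      hπ hF => FT.hasCommonForm_of D ℓ₀ fun ℓ _ hℓ =>
        FT.mumfordTate_of_types hind hM hΦ hnd ha hπ (D ℓ).realization (hF ℓ hℓ),
    GS.rhoEstimate, GS.noMultipleComponents⟩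

end Pool.Agent.Results.MP_e965d0_ag.AlmostAllFrobeniusTypes
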