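import Mathlib
import Pool.Agent.TH118.ZC.Form

/-!
# The common rational form of the monodromy groups of a product

Let `A` and `B` be abelian varieties over a number field `F`, `l` a prime, `K` an algebraic closure
of `ℚ_l`, `M` and `N` the rational Tate modules of `A` and `B`, tensored with `K`, with the actions `R`
and `S` of the Galois group `Γ` of `F`, `b` and `bN` the bases of `M` and `N` that come from bases of
`H_1(A, ℚ)` and `H_1(B, ℚ)`, `ω` the form on `M` given by the Riemann form `ψ` of a polarization of
`A`, `q` the matrix of `ψ`, and `χ` the cyclotomic character.  It is a polynomial `c` with
rational coefficients in the matrix entries of `S`, the same for all `l`: express the multiplier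
by a Riemann form of `B`.  (For `B = 0` one takes for `N` the Tate motive `ℚ(1)`, with `S = χ`, `c`
the only entry and `P` empty.)

Let `P` be a set of polynomials with rational coefficients in the matrix entries.
`IsRationalForm b R P` says that for all sufficiently small subgroups `Δ` of finite index of `Γ` the
equations `P` define the Zariski closure of the image of `Δ` in the general linear group, over `K`.
So the algebraic group over `ℚ` with the equations `P` gives over `ℚ_l` the identity component of the
`l`-adic monodromy group.  Question Q1 for `A` asks for a set `P` which has this property for ALL
large primes `l`.  In the theorem the equations `fibreForm q c P` for `A × B` depend only on the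
rational data `q`, `c` and `P`, not on `l`.

Hypotheses on `A`:

* `M` is irreducible for all subgroups of finite index.  By the theorem of Faltings this means that
  the endomorphism ring of `A` over the algebraic closure of `F` is `ℤ`.
* There is an element `γ` of the Galois group which acts trivially on `N` and on the `l`-power roots
  of unity (for example an element of the inertia group of a place of bad reduction of `A`, prime to
  `l`, where `B` has good reduction; the same place can be used for all `l` that it does not
  divide), and which acts on `M` (`GoodElement`)
  - by a unipotent map different from the identity, with `(γ - 1) ^ 2 = 0` and `γ - 1` of rank at most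
    two (semiabelian reduction of toric rank one or two),
  - or with finite order, and for `a = 1` or `a = -1` the eigenvalues different from `a` are
    simple, and their number `c`, which is not zero, and the dimension `d` of the eigenspace for `a`
    satisfy `c ^ 2 < 2 d` (for instance: the special fibre of the Néron model has an abelian part of
    dimension `g - c / 2`, and the reduction is potentially good),
  - or with finite order and eigenvalues which split in an isolated way (`IsolatedFinite`).
  In the cases of finite order it is also assumed that there is an element of the Galois group with
  two eigenvalues on `M` whose quotient is not a root of unity (always true: otherwise the connected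
  component of the monodromy group would act by scalars).

Hypotheses on `B`: only that the common rational form exists for `B` (`hP`), and the existence of `γ`.
The group is not assumed to be the Mumford-Tate group.  For instance `B = 0`, `B` with
complex multiplication, any `B` for which the Mumford-Tate conjecture is known, or a product
of varieties like `A`.

Theorem.  If `P` is a common rational form for `B`, then `fibreForm q c P` is one for `A × B`; it is the fibre product
`GSp(H_1(A, ℚ), ψ) ×_{𝔾_m} H` over the multiplier, `H` the rational form for `B`.  So the answer to Q1
is yes for `A × B` if it is yes for `B`; it is yes for `A`, and for `A_1 × ⋯ × A_r × B`, `A_i` with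
a place as above where all `A_j`, `j > i`, and `B` have good reduction.

The proof: the Lie algebra of the Zariski closure (operators compatible with the spaces of all
functions of bounded degree on the group) contains the logarithm of `γ` if `γ` is unipotent, and
otherwise an eigenvector of the conjugation by `γ`, which is zero on `N`, and of rank at most two
on `M`, with square zero; this generates the symplectic Lie algebra.
-/

namespace Pool.Agent.Results.MP_e965d0_ag.ProductForms

open Module Pool.Agent.TH118.ZC Pool.Agent.TH118.TP

theorem result {K : Type} [Field K] [CharZero K] [IsAlgClosed K]
    -- the Tate modules of `A` and `B` with the rational bases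
    {M : Type} [AddCommGroup M] [Module K M] [FiniteDimensional K M]
    {N : Type} [AddCommGroup N] [Module K N] [FiniteDimensional K N]
    {ι κ : Type} [Fintype ι] [Fintype κ] (b : Basis ι K M) (bN : Basis κ K N)
    -- the action of the Galois group
    {Γ : Type} [Group Γ] (R : Representation K Γ M) (S : Representation K Γ N) (χ : Γ →* K)
    -- the Riemann form of `A`
    (ω : M →ₗ[K] M →ₗ[K] K) (halt : ∀ v, ω v v = 0) (hnd : ∀ u, (∀ v, ω u v = 0) → u = 0)
    (hω : ∀ g u v, ω (R g u) (R g v) = χ g * ω u v)
    (q : ι → ι → ℚ) (hq : ∀ i j, ω (b i) (b j) = algebraMap ℚ K (q i j))
    -- irreducibility and the element of the inertia group
    (hirr : StronglyIrr R) (hγ : ∃ γ : Γ, χ γ = 1 ∧ S γ = 1 ∧ GoodElement R γ)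
    -- the multiplier as a polynomial in the entries of `S`
    (c : MvPolynomial (κ × κ) ℚ)
    (hc : ∀ g, ev bN (MvPolynomial.map (algebraMap ℚ K) c) (S g) = χ g)
    -- the rational form for `B`
    (P : Set (MvPolynomial (κ × κ) ℚ)) (hP : IsRationalForm bN S P) :
    IsRationalForm (b.prod bN) (dsum R S) (fibreForm q c P) :=
  form_prod b bN R S χ ω halt hnd hω hirr hγ q hq c hc P hP

end Pool.Agent.Results.MP_e965d0_ag.ProductForms
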