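import Pool.Agent.TH30.QF.Main

/-!
# A common `ℚ`-form of the `ℓ`-adic monodromy groups is decided by one quartic class for each `ℓ`

Let `A` be an abelian variety over a number field `F ⊂ ℂ`. `W = H₁(A(ℂ), ℚ)`, `T` is the tangent
space, `per : W → T` the inclusion, `ω₀` a polarization; `V_ℓ = ℚ_ℓ ⊗ W` is the rational Tate module
with the action of the Galois group `Γ` (structure `TateData`, which contains the known theorems of
Faltings and Deligne and the theorem on the centres). A Tate class of degree `2 m` is a `2 m`-linear
form on `V_ℓ` (in `H¹(A)^{⊗ 2 m}(m)`) fixed by a subgroup of finite index of `Γ`.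

The Casimir class `Θ_ℓ` is the quartic form `∑ ω (X_i v₁) v₂ * ω (Y_i v₃) v₄`, where `X_i` and `Y_i`
are dual bases, for the trace form, of the Lie algebra `𝔤_ℓ` of the endomorphisms of `V_ℓ` which
annihilate all Tate classes.

The identity component of the Zariski closure `G_ℓ` of the image of `Γ` is reductive and contains the
homotheties; it is the group of the elements of `GSp` which fix all Tate classes. So the condition
`TateClassesCommon` says that there is a group over `ℚ` (the group of the elements of `GSp(W)` which
fix all common rational Tate classes) which becomes `G_ℓ°` over `ℚ_ℓ` for all `ℓ ≥ ℓ₀`.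

Theorem: this holds if and only if for every `ℓ ≥ ℓ₀` the one class `Θ_ℓ` of degree four is a linear
combination of rational quartic forms which are Tate classes for all primes `≥ ℓ₀`, if and only if
all `Θ_ℓ` are extensions of one rational quartic form `Θ₀`, if and only if the Lie algebras `𝔤_ℓ`,
`ℓ ≥ ℓ₀`, come from one subspace of the endomorphisms of `W`.
-/

namespace Pool.Agent.Results.MP_e965d0_ag.QuarticForms

open Pool.Agent.W516.MTD Pool.Agent.TH30.QF

/-- **A common `ℚ`-form of the `ℓ`-adic monodromy groups is decided by quartic forms.** -/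
theorem result {W T : Type} [AddCommGroup W] [Module ℚ W] [FiniteDimensional ℚ W]
    [AddCommGroup T] [Module ℂ T] (per : W →+ T) (hper : IsRationalStructure per)
    (ω₀ : W →ₗ[ℚ] W →ₗ[ℚ] ℚ) (hR : IsRiemannForm per ω₀)
    {Γ : Type} [Group Γ] [TopologicalSpace Γ] [IsTopologicalGroup Γ] [CompactSpace Γ]
    (D : ∀ (ℓ : ℕ) [Fact ℓ.Prime], TateData per ω₀ Γ ℓ) (ℓ₀ : ℕ) :
    List.TFAE [TateClassesCommon D ℓ₀, LieAlgebrasCommon D ℓ₀, CasimirCommon D ℓ₀,
      CasimirRational D ℓ₀] :=
  tfae D ℓ₀ hper hR

end Pool.Agent.Results.MP_e965d0_ag.QuarticForms
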